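import Pool.Agent.Lib.MP_671173_al.Main

set_option autoImplicit false

namespace Pool.Agent.Lib.MP_671173_al.Old.NotPolynomial

open Pool.Agent.Lib.MP_671173_al

/-- `ω(UU₄(F_q))` is not a polynomial in `q` for large `q`: for every rational polynomial `P` and
every bound `q₀` some finite field with `q ≥ q₀` elements has `ω(UU₄(F_q)) ≠ P(q)`. -/
theorem result (P : Polynomial ℚ) (q₀ : ℕ) :
    ∃ (K : Type) (_ : Field K) (_ : Fintype K), q₀ ≤ Fintype.card K ∧
      (omegaUU4 K : ℚ) ≠ P.eval (Fintype.card K : ℚ) :=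
  main P q₀

end Pool.Agent.Lib.MP_671173_al.Old.NotPolynomial
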